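import Pool.Agent.Helper26.KD.St

/-! Project CB (MP_65faa7), block K, module Exp: the expansion of `w - F * w`. -/

set_option autoImplicit false

open scoped BigOperators ENNReal Topology
open Pool.LE Pool.NL Filter

namespace Pool.KD

namespace ExpM

variable {d : ℕ}

lemma nn_nonneg (y : Zd d) : 0 ≤ nn y := Real.sqrt_nonneg _

lemma lsq_nonneg (y : Zd d) : 0 ≤ LE.sq y := Finset.sum_nonneg (fun _ _ => sq_nonneg _)

lemma nn_sq (y : Zd d) : nn y ^ 2 = LE.sq y := Real.sq_sqrt (lsq_nonneg y)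

lemma nn_pow_le (y : Zd d) (a : ℕ) (ha : a ≤ 3) : nn y ^ a ≤ (1 + nn y) ^ 3 :=
  (pow_le_pow_left₀ (nn_nonneg y) (by linarith [nn_nonneg y]) a).trans
    (pow_le_pow_right₀ (by linarith [nn_nonneg y]) ha)

lemma one_le_cube (y : Zd d) : 1 ≤ (1 + nn y) ^ 3 := by
  have h := nn_pow_le y 0 (by norm_num)
  simpa using h

lemma sym_neg {F : Zd d → ℝ} (h : SymF F) (y : Zd d) : F (-y) = F y := by
  have h1 := h 1 (fun _ => -1) y
  have h2 : sgp (1 : Equiv.Perm (Fin d)) (fun _ => (-1 : ℤˣ)) y = -y := by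
    funext i
    simp [sgp]
  rw [h2] at h1
  exact h1

lemma dt_neg (x y : Zd d) : dt x (-y) = -dt x y := by
  unfold dt
  rw [← Finset.sum_neg_distrib]
  refine Finset.sum_congr rfl fun i _ => ?_
  simp

lemma t1_neg (s m : ℝ) (x y : Zd d) : t1 s m x (-y) = -t1 s m x y := by
  unfold t1
  rw [dt_neg]
  ring

lemma sum_odd {f : Zd d → ℝ} (h : ∀ y, f (-y) = -f y) : ∑' y, f y = 0 := by
  have h1 : ∑' y, f (-y) = ∑' y, f y := (Equiv.neg (Zd d)).tsum_eq f
  have h2 : ∑' y, f (-y) = -∑' y, f y := by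
    rw [← tsum_neg]
    exact tsum_congr h
  linarith

lemma summ_of_le {F : Zd d → ℝ} (hS : Summable (fun y => (1 + nn y) ^ 3 * |F y|)) (f : Zd d → ℝ)
    (c : ℝ) (h : ∀ y, |f y| ≤ c * ((1 + nn y) ^ 3 * |F y|)) : Summable f :=
  Summable.of_norm_bounded (hS.mul_left c) (fun y => by rw [Real.norm_eq_abs]; exact h y)

lemma sumQ_of {F : Zd d → ℝ} (hS : Summable (fun y => (1 + nn y) ^ 3 * |F y|)) : SumQ F := by
  refine summ_of_le hS _ 2 fun y => ?_
  have h1 : 0 ≤ |F y| := abs_nonneg _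
  have h2 : 0 ≤ Qw y := by
    unfold Qw
    linarith [lsq_nonneg y]
  rw [abs_of_nonneg (mul_nonneg h2 h1), ← mul_assoc]
  refine mul_le_mul_of_nonneg_right ?_ h1
  unfold Qw
  have h3 := nn_nonneg y
  rw [← nn_sq]
  nlinarith [mul_nonneg h3 h3, mul_nonneg (mul_nonneg h3 h3) h3]

end ExpM

open ExpM in
theorem hExp (hW : StW) (hTay : StTay) (hIso : StIso) : StExp := by
  intro d s hd hs
  obtain ⟨C, hC1, hC⟩ := hTay s hs
  refine ⟨C, hC1, ?_⟩
  intro F K m hsym hM hm x
  have hm0 : 0 < m := lt_of_lt_of_le one_pos hm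
  obtain ⟨-, hW2, hW3, -⟩ := hW d m hm
  have hS := hM.summ
  have hdR : (d : ℝ) ≠ 0 := by
    have : (0 : ℝ) < d := by exact_mod_cast hd
    exact this.ne'
  -- summabilities
  have sF : Summable F := by
    refine summ_of_le hS _ 1 fun y => ?_
    rw [one_mul]
    exact le_mul_of_one_le_left (abs_nonneg _) (one_le_cube y)
  have sFw : Summable (fun y => F y * ww s m (x - y)) := by
    refine summ_of_le hS _ 1 fun y => ?_
    have h1 := hW3 s (x - y) hs.le
    rw [one_mul, abs_mul, abs_of_pos h1.1]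
    calc |F y| * ww s m (x - y) ≤ |F y| * 1 := mul_le_mul_of_nonneg_left h1.2.1 (abs_nonneg _)
      _ = |F y| := mul_one _
      _ ≤ (1 + nn y) ^ 3 * |F y| := le_mul_of_one_le_left (abs_nonneg _) (one_le_cube y)
  have sfar : Summable (fun y => if m + nn x < 2 * nn y then |F y| * ww s m (x - y) else 0) := by
    refine summ_of_le hS _ 1 fun y => ?_
    have h1 := hW3 s (x - y) hs.le
    rw [one_mul]
    have h2 : |F y| * ww s m (x - y) ≤ (1 + nn y) ^ 3 * |F y| :=
      calc |F y| * ww s m (x - y) ≤ |F y| * 1 :=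
            mul_le_mul_of_nonneg_left h1.2.1 (abs_nonneg _)
        _ = |F y| := mul_one _
        _ ≤ (1 + nn y) ^ 3 * |F y| := le_mul_of_one_le_left (abs_nonneg _) (one_le_cube y)
    split_ifs
    · rw [abs_of_nonneg (mul_nonneg (abs_nonneg _) h1.1.le)]
      exact h2
    · rw [abs_zero]
      exact (mul_nonneg (abs_nonneg _) h1.1.le).trans h2
  have sq1 : Summable (fun y => LE.sq y * F y) := by
    refine summ_of_le hS _ 1 fun y => ?_
    rw [one_mul, abs_mul, abs_of_nonneg (lsq_nonneg y), ← nn_sq]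
    exact mul_le_mul_of_nonneg_right (nn_pow_le y 2 (by norm_num)) (abs_nonneg _)
  have sdt : Summable (fun y => F y * dt x y) := by
    refine summ_of_le hS _ (nn x) fun y => ?_
    rw [abs_mul]
    have h1 := (hW2 x y).2.1
    have h2 := nn_pow_le y 1 (by norm_num)
    rw [pow_one] at h2
    calc |F y| * |dt x y| ≤ |F y| * (nn x * nn y) := mul_le_mul_of_nonneg_left h1 (abs_nonneg _)
      _ ≤ |F y| * (nn x * (1 + nn y) ^ 3) := by
          refine mul_le_mul_of_nonneg_left ?_ (abs_nonneg _)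
          exact mul_le_mul_of_nonneg_left h2 (nn_nonneg x)
      _ = nn x * ((1 + nn y) ^ 3 * |F y|) := by ring
  have hiso := hIso d F hd (sumQ_of hS) hsym (fun i => (x i : ℝ))
  have edt : ∀ y : Zd d, (∑ i, (x i : ℝ) * (y i : ℝ)) = dt x y := fun y => rfl
  have esq : (∑ i, ((x i : ℝ)) ^ 2) = LE.sq x := rfl
  obtain ⟨sdt2, hdt2⟩ := hiso
  simp only [edt, esq] at sdt2 hdt2
  -- first order term
  have st1 : Summable (fun y => F y * t1 s m x y) := by
    have h1 := sdt.mul_left (s / m ^ 2 * qq m x ^ (-(s / 2) - 1))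
    refine h1.congr fun y => ?_
    unfold t1
    ring
  have et1 : ∑' y, F y * t1 s m x y = 0 := by
    refine sum_odd fun y => ?_
    rw [sym_neg hsym, t1_neg]
    ring
  -- second order term
  have f2 : ∀ y : Zd d, F y * t2 s m x y =
      s * (s + 2) / 2 / m ^ 4 * qq m x ^ (-(s / 2) - 2) * (F y * dt x y ^ 2) -
        s / 2 / m ^ 2 * qq m x ^ (-(s / 2) - 1) * (LE.sq y * F y) := by
    intro y
    unfold t2
    ring
  have sA := sdt2.mul_left (s * (s + 2) / 2 / m ^ 4 * qq m x ^ (-(s / 2) - 2))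
  have sB := sq1.mul_left (s / 2 / m ^ 2 * qq m x ^ (-(s / 2) - 1))
  have st2 : Summable (fun y => F y * t2 s m x y) := by
    refine (sA.sub sB).congr fun y => ?_
    exact (f2 y).symm
  have et2 : ∑' y, F y * t2 s m x y =
      -((∑' y, LE.sq y * F y) / (2 * d) / m ^ 2 * fs s m x) := by
    rw [tsum_congr f2, (sA.hasSum.sub sB.hasSum).tsum_eq, tsum_mul_left, tsum_mul_left, hdt2]
    unfold fs
    field_simp
    ring
  -- remainder
  set R : Zd d → ℝ := fun y => ww s m (x - y) - ww s m x - t1 s m x y - t2 s m x y with hR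
  have sFx : Summable (fun y => F y * ww s m x) := sF.mul_right _
  have sFR : Summable (fun y => F y * R y) := by
    refine (((sFw.sub sFx).sub st1).sub st2).congr fun y => ?_
    simp only [hR]
    ring
  have eFR : ∑' y, F y * R y = ∑' y, F y * ww s m (x - y) - (∑' y, F y) * ww s m x -
      ∑' y, F y * t1 s m x y - ∑' y, F y * t2 s m x y := by
    rw [← tsum_mul_right, ← (sFw.hasSum.sub sFx.hasSum).tsum_eq,
      ← ((sFw.sub sFx).hasSum.sub st1.hasSum).tsum_eq,
      ← (((sFw.sub sFx).sub st1).hasSum.sub st2.hasSum).tsum_eq]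
    refine tsum_congr fun y => ?_
    simp only [hR]
    ring
  have key : ww s m x - ∑' y, F y * ww s m (x - y) - (1 - ∑' y, F y) * ww s m x -
      (∑' y, LE.sq y * F y) / (2 * d) / m ^ 2 * fs s m x = -∑' y, F y * R y := by
    rw [eFR, et1, et2]
    ring
  refine ⟨sFw, sfar, ?_⟩
  rw [key, abs_neg]
  have hw3 := (hW3 (s + 3) x (by linarith)).1
  have hCm : 0 ≤ C / m ^ 3 * ww (s + 3) m x := by positivity
  have sM := hS.mul_left (C / m ^ 3 * ww (s + 3) m x)
  have hbd : ∀ y, |F y * R y| ≤ C / m ^ 3 * ww (s + 3) m x * ((1 + nn y) ^ 3 * |F y|) +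
      if m + nn x < 2 * nn y then |F y| * ww s m (x - y) else 0 := by
    intro y
    have h1 := hC d m x y hm
    have h2 : |R y| ≤ C * (nn y / m) ^ 3 * ww (s + 3) m x +
      if m + nn x < 2 * nn y then ww s m (x - y) else 0 := h1
    have h3 : C * (nn y / m) ^ 3 * ww (s + 3) m x ≤
        C / m ^ 3 * ww (s + 3) m x * (1 + nn y) ^ 3 := by
      have h4 : C * (nn y / m) ^ 3 * ww (s + 3) m x =
          C / m ^ 3 * ww (s + 3) m x * nn y ^ 3 := by
        rw [div_pow]
        ring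
      rw [h4]
      exact mul_le_mul_of_nonneg_left (nn_pow_le y 3 le_rfl) hCm
    rw [abs_mul]
    calc |F y| * |R y| ≤ |F y| * (C / m ^ 3 * ww (s + 3) m x * (1 + nn y) ^ 3 +
          if m + nn x < 2 * nn y then ww s m (x - y) else 0) := by
          refine mul_le_mul_of_nonneg_left ?_ (abs_nonneg _)
          exact h2.trans (add_le_add h3 le_rfl)
      _ = _ := by
          rw [mul_add, mul_ite, mul_zero]
          ring
  calc |∑' y, F y * R y| ≤ ∑' y, |F y * R y| := by
        have h1 : Summable (fun y => ‖F y * R y‖) := sFR.abs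
        have h2 := norm_tsum_le_tsum_norm h1
        simpa [Real.norm_eq_abs] using h2
    _ ≤ ∑' y, (C / m ^ 3 * ww (s + 3) m x * ((1 + nn y) ^ 3 * |F y|) +
          if m + nn x < 2 * nn y then |F y| * ww s m (x - y) else 0) :=
        sFR.abs.tsum_le_tsum hbd (sM.add sfar)
    _ = C / m ^ 3 * ww (s + 3) m x * (∑' y, (1 + nn y) ^ 3 * |F y|) +
          ∑' y, (if m + nn x < 2 * nn y then |F y| * ww s m (x - y) else 0) := by
        rw [(sM.hasSum.add sfar.hasSum).tsum_eq, tsum_mul_left]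
    _ ≤ C / m ^ 3 * ww (s + 3) m x * K +
          ∑' y, (if m + nn x < 2 * nn y then |F y| * ww s m (x - y) else 0) := by
        have h1 := mul_le_mul_of_nonneg_left hM.le hCm
        linarith
    _ = _ := by ring

end Pool.KD
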